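import Mathlib

/-! `E max_k |∑_{j<k} ± F_j|² ≤ 4 ∑ |F_j|²` for independent symmetric signs, by a Bellman function. -/

open MeasureTheory ProbabilityTheory
open scoped ENNReal NNReal

namespace R13.Shells

/-- `true ↦ 1`, `false ↦ -1`. -/
noncomputable def sgn (b : Bool) : ℂ := if b then 1 else -1

lemma norm_sgn (b : Bool) : ‖sgn b‖ = 1 := by cases b <;> simp [sgn]

/-- Partial sums. -/
noncomputable def ps (F : ℕ → ℂ) (e : ℕ → Bool) (k : ℕ) : ℂ := ∑ j ∈ Finset.range k, sgn (e j) * F j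

/-- Running maximum. -/
noncomputable def mx (F : ℕ → ℂ) (e : ℕ → Bool) : ℕ → ℝ
  | 0 => 0
  | k + 1 => max (mx F e k) ‖ps F e (k+1)‖

lemma ps_congr (F : ℕ → ℂ) {e e' : ℕ → Bool} {k : ℕ} (h : ∀ j < k, e j = e' j) : ps F e k = ps F e' k := by
  unfold ps
  refine Finset.sum_congr rfl fun j hj => ?_
  rw [h j (Finset.mem_range.1 hj)]

lemma mx_congr (F : ℕ → ℂ) {e e' : ℕ → Bool} {k : ℕ} (h : ∀ j < k, e j = e' j) : mx F e k = mx F e' k := by
  induction k with
  | zero => rfl
  | succ k ih =>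
    simp only [mx]
    rw [ih (fun j hj => h j (by omega)), ps_congr F h]

lemma mx_nonneg (F : ℕ → ℂ) (e : ℕ → Bool) (k : ℕ) : 0 ≤ mx F e k := by
  induction k with
  | zero => exact le_rfl
  | succ k ih => exact ih.trans (le_max_left _ _)

lemma mx_mono (F : ℕ → ℂ) (e : ℕ → Bool) : Monotone (mx F e) :=
  monotone_nat_of_le_succ fun _ => le_max_left _ _

lemma norm_ps_le_mx (F : ℕ → ℂ) (e : ℕ → Bool) (k : ℕ) : ‖ps F e k‖ ≤ mx F e k := by
  cases k with
  | zero => simp [ps, mx]
  | succ k => exact le_max_right _ _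

/-- Bellman function. -/
def U (x m : ℝ) : ℝ := 4 * x ^ 2 - 4 * m * x + 2 * m ^ 2

lemma sq_le_U (x m : ℝ) : m ^ 2 ≤ U x m := by
  unfold U; nlinarith [sq_nonneg (m - 2 * x)]

lemma U_max_le (x m : ℝ) : U x (max m x) ≤ U x m := by
  rcases le_total m x with h | h
  · rw [max_eq_right h]
    unfold U
    nlinarith [sq_nonneg (x - m)]
  · rw [max_eq_left h]

lemma U_average (z F : ℂ) (m : ℝ) (hm : 0 ≤ m) :
    (U ‖z + F‖ m + U ‖z - F‖ m) / 2 ≤ U ‖z‖ m + 4 * ‖F‖ ^ 2 := by
  have h1 : ‖z + F‖ ^ 2 + ‖z - F‖ ^ 2 = 2 * (‖z‖ ^ 2 + ‖F‖ ^ 2) :=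
    parallelogram_law_with_norm ℝ z F
  have h2 : 2 * ‖z‖ ≤ ‖z + F‖ + ‖z - F‖ := by
    have : (2:ℂ) * z = (z + F) + (z - F) := by ring
    calc 2 * ‖z‖ = ‖(2:ℂ) * z‖ := by rw [norm_mul]; simp
      _ = ‖(z + F) + (z - F)‖ := by rw [this]
      _ ≤ _ := norm_add_le _ _
  unfold U
  nlinarith [mul_le_mul_of_nonneg_left h2 hm]

variable {Ω : Type*} [MeasurableSpace Ω] {P : Measure Ω} [IsProbabilityMeasure P]

/-- Independent symmetric signs. -/
structure IsSigns (ε : ℕ → Ω → Bool) (P : Measure Ω) : Prop where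
  meas : ∀ m, Measurable (ε m)
  indep : iIndepFun ε P
  half : ∀ m b, P {ω | ε m ω = b} = 1 / 2

lemma split {ε : ℕ → Ω → Bool} (h : IsSigns ε P) (k : ℕ)
    (Ψ : ((i : Finset.range k) → Bool) → Bool → ℝ) :
    ∫ ω, Ψ (fun i => ε i ω) (ε k ω) ∂P
      = (∫ ω, Ψ (fun i => ε i ω) true ∂P + ∫ ω, Ψ (fun i => ε i ω) false ∂P) / 2 := by
  have hX : Measurable (fun ω => (fun i : Finset.range k => ε i ω)) :=
    measurable_pi_lambda _ fun i => h.meas i
  have hY : Measurable (ε k) := h.meas k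
  have hind0 := h.indep.indepFun_finset (Finset.range k) {k}
    (by simp) h.meas
  have hind : IndepFun (fun ω => (fun i : Finset.range k => ε i ω)) (ε k) P := by
    have hφ : Measurable (fun y : (({k} : Finset ℕ) → Bool) => y ⟨k, Finset.mem_singleton_self k⟩) :=
      measurable_pi_apply _
    exact hind0.comp measurable_id hφ
  have hlaw := (indepFun_iff_map_prod_eq_prod_map_map hX.aemeasurable hY.aemeasurable).1 hind
  have hΨ : Measurable (Function.uncurry Ψ) := measurable_of_finite _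
  have e1 : ∫ ω, Ψ (fun i => ε i ω) (ε k ω) ∂P
      = ∫ z, Function.uncurry Ψ z ∂(P.map (fun ω => ((fun i : Finset.range k => ε i ω), ε k ω))) := by
    rw [integral_map (hX.prodMk hY).aemeasurable hΨ.aestronglyMeasurable]
    rfl
  have : IsProbabilityMeasure (P.map (fun ω => (fun i : Finset.range k => ε i ω))) :=
    Measure.isProbabilityMeasure_map hX.aemeasurable
  have : IsProbabilityMeasure (P.map (ε k)) := Measure.isProbabilityMeasure_map hY.aemeasurable
  rw [e1, hlaw, integral_prod _ (Integrable.of_finite)]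
  have hb : ∀ b, (P.map (ε k)).real {b} = 1/2 := by
    intro b
    rw [Measure.real, Measure.map_apply hY (measurableSet_singleton b)]
    have : ε k ⁻¹' {b} = {ω | ε k ω = b} := rfl
    rw [this, h.half k b]
    simp
  have e2 : ∀ y : (Finset.range k → Bool), ∫ b, Function.uncurry Ψ (y, b) ∂(P.map (ε k))
      = (Ψ y true + Ψ y false) / 2 := by
    intro y
    rw [integral_fintype Integrable.of_finite]
    simp only [Fintype.sum_bool, hb, Function.uncurry]
    simp only [smul_eq_mul]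
    ring
  simp_rw [e2]
  rw [integral_map hX.aemeasurable (measurable_of_finite _).aestronglyMeasurable]
  have hi : ∀ b, Integrable (fun ω => Ψ (fun i => ε i ω) b) P := by
    intro b
    have : Integrable (fun y : (Finset.range k → Bool) => Ψ y b)
      (P.map (fun ω => (fun i : Finset.range k => ε i ω))) := Integrable.of_finite
    exact this.comp_measurable hX
  rw [integral_div, integral_add (hi true) (hi false)]

/-- Extension of a finite block of signs. -/
def exts (k : ℕ) (y : (i : Finset.range k) → Bool) (b : Bool) (j : ℕ) : Bool :=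
  if h : j ∈ Finset.range k then y ⟨j, h⟩ else b

lemma exts_eq (k : ℕ) (e : ℕ → Bool) : ∀ j < k + 1, exts k (fun i => e i) (e k) j = e j := by
  intro j hj
  unfold exts
  by_cases h : j ∈ Finset.range k
  · rw [dif_pos h]
  · rw [dif_neg h]
    have : j = k := by
      rw [Finset.mem_range] at h; omega
    rw [this]

lemma exts_lt (k : ℕ) (e : ℕ → Bool) (b : Bool) : ∀ j < k, exts k (fun i => e i) b j = e j := by
  intro j hj
  unfold exts
  rw [dif_pos (Finset.mem_range.2 hj)]

lemma exts_self (k : ℕ) (y : (i : Finset.range k) → Bool) (b : Bool) : exts k y b k = b := by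
  unfold exts
  rw [dif_neg (by simp)]

lemma ps_succ (F : ℕ → ℂ) (e : ℕ → Bool) (k : ℕ) : ps F e (k+1) = ps F e k + sgn (e k) * F k := by
  unfold ps
  rw [Finset.sum_range_succ]

lemma integrable_fn {ε : ℕ → Ω → Bool} (h : IsSigns ε P) (k : ℕ) (Ψ : (ℕ → Bool) → ℝ)
    (hΨ : ∀ e e' : ℕ → Bool, (∀ j < k, e j = e' j) → Ψ e = Ψ e') :
    Integrable (fun ω => Ψ (fun j => ε j ω)) P := by
  have hX : Measurable (fun ω => (fun i : Finset.range k => ε i ω)) :=
    measurable_pi_lambda _ fun i => h.meas i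
  have : IsProbabilityMeasure (P.map (fun ω => (fun i : Finset.range k => ε i ω))) :=
    Measure.isProbabilityMeasure_map hX.aemeasurable
  have h1 : Integrable (fun y : (Finset.range k → Bool) => Ψ (exts k y true))
      (P.map (fun ω => (fun i : Finset.range k => ε i ω))) := Integrable.of_finite
  have h2 := h1.comp_measurable hX
  refine h2.congr (Filter.Eventually.of_forall fun ω => ?_)
  exact hΨ _ _ (exts_lt k (fun j => ε j ω) true)

/-- One step of the Bellman induction. -/
lemma step {ε : ℕ → Ω → Bool} (h : IsSigns ε P) (F : ℕ → ℂ) (k : ℕ) :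
    ∫ ω, U ‖ps F (fun j => ε j ω) (k+1)‖ (mx F (fun j => ε j ω) (k+1)) ∂P
      ≤ ∫ ω, U ‖ps F (fun j => ε j ω) k‖ (mx F (fun j => ε j ω) k) ∂P + 4 * ‖F k‖ ^ 2 := by
  have i1 : Integrable (fun ω => U ‖ps F (fun j => ε j ω) (k+1)‖ (mx F (fun j => ε j ω) (k+1))) P :=
    integrable_fn h (k+1) (fun e => U ‖ps F e (k+1)‖ (mx F e (k+1))) (fun e e' he => by
      rw [ps_congr F he, mx_congr F he])
  have i2 : Integrable (fun ω => U ‖ps F (fun j => ε j ω) (k+1)‖ (mx F (fun j => ε j ω) k)) P :=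
    integrable_fn h (k+1) (fun e => U ‖ps F e (k+1)‖ (mx F e k)) (fun e e' he => by
      rw [ps_congr F he, mx_congr F (fun j hj => he j (by omega))])
  have i3 : Integrable (fun ω => U ‖ps F (fun j => ε j ω) k‖ (mx F (fun j => ε j ω) k)) P :=
    integrable_fn h k (fun e => U ‖ps F e k‖ (mx F e k)) (fun e e' he => by
      rw [ps_congr F he, mx_congr F he])
  have i4 : ∀ z : ℂ, Integrable (fun ω => U ‖ps F (fun j => ε j ω) k + z‖ (mx F (fun j => ε j ω) k)) P :=
    fun z => integrable_fn h k (fun e => U ‖ps F e k + z‖ (mx F e k)) (fun e e' he => by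
      rw [ps_congr F he, mx_congr F he])
  -- reduce the running maximum
  have s1 : ∫ ω, U ‖ps F (fun j => ε j ω) (k+1)‖ (mx F (fun j => ε j ω) (k+1)) ∂P
      ≤ ∫ ω, U ‖ps F (fun j => ε j ω) (k+1)‖ (mx F (fun j => ε j ω) k) ∂P := by
    refine integral_mono i1 i2 fun ω => ?_
    simp only [mx]
    exact U_max_le _ _
  -- split the last sign
  have s2 : ∫ ω, U ‖ps F (fun j => ε j ω) (k+1)‖ (mx F (fun j => ε j ω) k) ∂P
      = (∫ ω, U ‖ps F (fun j => ε j ω) k + F k‖ (mx F (fun j => ε j ω) k) ∂P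
        + ∫ ω, U ‖ps F (fun j => ε j ω) k - F k‖ (mx F (fun j => ε j ω) k) ∂P) / 2 := by
    have := split h k (fun y b => U ‖ps F (exts k y b) (k+1)‖ (mx F (exts k y b) k))
    have a1 : ∀ ω, U ‖ps F (exts k (fun i => ε i ω) (ε k ω)) (k+1)‖
        (mx F (exts k (fun i => ε i ω) (ε k ω)) k)
        = U ‖ps F (fun j => ε j ω) (k+1)‖ (mx F (fun j => ε j ω) k) := by
      intro ω
      rw [ps_congr F (exts_eq k (fun j => ε j ω)),
        mx_congr F (fun j hj => exts_eq k (fun j => ε j ω) j (by omega))]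
    have a2 : ∀ b ω, U ‖ps F (exts k (fun i => ε i ω) b) (k+1)‖
        (mx F (exts k (fun i => ε i ω) b) k)
        = U ‖ps F (fun j => ε j ω) k + sgn b * F k‖ (mx F (fun j => ε j ω) k) := by
      intro b ω
      rw [ps_succ, exts_self, ps_congr F (exts_lt k (fun j => ε j ω) b),
        mx_congr F (exts_lt k (fun j => ε j ω) b)]
    simp only [a1, a2] at this
    rw [this]
    simp only [sgn]
    simp only [if_true, one_mul, Bool.false_eq_true, if_false, neg_mul, ← sub_eq_add_neg]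
  rw [s2] at s1
  refine s1.trans ?_
  have i5 := i4 (F k)
  have i6 : Integrable (fun ω => U ‖ps F (fun j => ε j ω) k - F k‖ (mx F (fun j => ε j ω) k)) P := by
    simpa [sub_eq_add_neg] using i4 (-F k)
  rw [← integral_add i5 i6, ← integral_div]
  have : ∫ ω, U ‖ps F (fun j => ε j ω) k‖ (mx F (fun j => ε j ω) k) ∂P + 4 * ‖F k‖ ^ 2
      = ∫ ω, (U ‖ps F (fun j => ε j ω) k‖ (mx F (fun j => ε j ω) k) + 4 * ‖F k‖ ^ 2) ∂P := by
    rw [integral_add i3 (integrable_const _)]
    simp
  rw [this]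
  refine integral_mono ((i5.add i6).div_const 2) (i3.add (integrable_const _)) fun ω => ?_
  exact U_average _ _ _ (mx_nonneg _ _ _)

lemma maximal_fin {ε : ℕ → Ω → Bool} (h : IsSigns ε P) (F : ℕ → ℂ) (k : ℕ) :
    ∫ ω, (mx F (fun j => ε j ω) k) ^ 2 ∂P ≤ 4 * ∑ j ∈ Finset.range k, ‖F j‖ ^ 2 := by
  have h1 : ∀ k, ∫ ω, U ‖ps F (fun j => ε j ω) k‖ (mx F (fun j => ε j ω) k) ∂P
      ≤ 4 * ∑ j ∈ Finset.range k, ‖F j‖ ^ 2 := by
    intro k
    induction k with
    | zero => simp [ps, mx, U]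
    | succ k ih =>
      rw [Finset.sum_range_succ, mul_add]
      exact (step h F k).trans (by linarith)
  refine le_trans ?_ (h1 k)
  refine integral_mono ?_ ?_ fun ω => sq_le_U _ _
  · exact integrable_fn h k (fun e => (mx F e k) ^ 2) (fun e e' he => by rw [mx_congr F he])
  · exact integrable_fn h k (fun e => U ‖ps F e k‖ (mx F e k)) (fun e e' he => by
      rw [ps_congr F he, mx_congr F he])

/-- **Maximal inequality.** -/
theorem maximal {ε : ℕ → Ω → Bool} (h : IsSigns ε P) (F : ℕ → ℂ) :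
    ∫⁻ ω, (⨆ k, ‖ps F (fun j => ε j ω) k‖ₑ) ^ 2 ∂P ≤ 4 * ∑' j, ‖F j‖ₑ ^ 2 := by
  have hmeas : ∀ k, Measurable (fun ω => mx F (fun j => ε j ω) k) := by
    intro k
    have hX : Measurable (fun ω => (fun i : Finset.range k => ε i ω)) :=
      measurable_pi_lambda _ fun i => h.meas i
    have : (fun ω => mx F (fun j => ε j ω) k) = (fun y : (Finset.range k → Bool) => mx F (exts k y true) k)
        ∘ (fun ω => (fun i : Finset.range k => ε i ω)) := by
      funext ω
      exact (mx_congr F (exts_lt k (fun j => ε j ω) true)).symm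
    rw [this]
    exact (measurable_of_finite _).comp hX
  calc ∫⁻ ω, (⨆ k, ‖ps F (fun j => ε j ω) k‖ₑ) ^ 2 ∂P
      ≤ ∫⁻ ω, ⨆ k, ENNReal.ofReal ((mx F (fun j => ε j ω) k) ^ 2) ∂P := by
        refine lintegral_mono fun ω => ?_
        simp only
        have : (⨆ k, ‖ps F (fun j => ε j ω) k‖ₑ) ≤ ⨆ k, ENNReal.ofReal (mx F (fun j => ε j ω) k) := by
          refine iSup_mono fun k => ?_
          rw [← ofReal_norm]
          exact ENNReal.ofReal_le_ofReal (norm_ps_le_mx _ _ _)
        calc (⨆ k, ‖ps F (fun j => ε j ω) k‖ₑ) ^ 2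
            ≤ (⨆ k, ENNReal.ofReal (mx F (fun j => ε j ω) k)) ^ 2 := by gcongr
          _ = ⨆ k, ENNReal.ofReal (mx F (fun j => ε j ω) k) ^ 2 := by
              rw [ENNReal.iSup_pow_of_ne_zero (by norm_num)]
          _ = _ := by
              congr 1; funext k
              rw [ENNReal.ofReal_pow (mx_nonneg _ _ _)]
    _ = ⨆ k, ∫⁻ ω, ENNReal.ofReal ((mx F (fun j => ε j ω) k) ^ 2) ∂P := by
        refine lintegral_iSup (fun k => ((hmeas k).pow_const 2).ennreal_ofReal) ?_
        intro i j hij ω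
        simp only
        apply ENNReal.ofReal_le_ofReal
        have := mx_mono F (fun j => ε j ω) hij
        have := mx_nonneg F (fun j => ε j ω) i
        gcongr
    _ ≤ 4 * ∑' j, ‖F j‖ₑ ^ 2 := by
        refine iSup_le fun k => ?_
        rw [← ofReal_integral_eq_lintegral_ofReal
          (integrable_fn h k (fun e => (mx F e k) ^ 2) (fun e e' he => by rw [mx_congr F he]))
          (Filter.Eventually.of_forall fun ω => by positivity)]
        refine (ENNReal.ofReal_le_ofReal (maximal_fin h F k)).trans ?_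
        rw [ENNReal.ofReal_mul (by norm_num)]
        have e4 : ENNReal.ofReal 4 = 4 := by simp
        rw [e4]
        gcongr
        rw [ENNReal.ofReal_sum_of_nonneg (fun i _ => by positivity)]
        calc ∑ j ∈ Finset.range k, ENNReal.ofReal (‖F j‖ ^ 2)
            = ∑ j ∈ Finset.range k, ‖F j‖ₑ ^ 2 := by
              refine Finset.sum_congr rfl fun j _ => ?_
              rw [ENNReal.ofReal_pow (norm_nonneg _), ofReal_norm]
          _ ≤ _ := ENNReal.sum_le_tsum _

end R13.Shells
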