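import Pool.Agent.R13.Radii.Dense
import Pool.Agent.R13.Shells.Levy

/-! Random signs on the shells `L m < |ξ| ≤ L (m+1)`. -/

open MeasureTheory Complex Real
open scoped RealInnerProductSpace ENNReal NNReal ComplexConjugate

set_option linter.unusedSectionVars false

namespace R13.Shells

open R13.Radii

variable {V : Type*} [NormedAddCommGroup V] [InnerProductSpace ℝ V] [FiniteDimensional ℝ V]
  [MeasurableSpace V] [BorelSpace V]

/-! ### Scaling of the dominating function -/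

lemma dyH_comp_smul (g : V → ℂ) {t : ℝ} (ht : 0 < t) {a l : ℝ} (ha : 0 ≤ a) (hl : 0 ≤ l) (x : V) :
    dyH (fun R => ballInt (fun ξ => g (t⁻¹ • ξ)) R x) (t * a) (t * l)
      = ENNReal.ofReal (t ^ Module.finrank ℝ V) ^ 2 * dyH (fun R => ballInt g R (t • x)) a l := by
  have hc : ENNReal.ofReal (t ^ Module.finrank ℝ V)
      = ‖((t ^ Module.finrank ℝ V : ℝ) : ℂ)‖ₑ := by
    rw [← ofReal_norm, Complex.norm_real, Real.norm_of_nonneg (by positivity)]
  have key : ∀ R : ℝ, 0 ≤ R → ballInt (fun ξ => g (t⁻¹ • ξ)) (t * R) x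
      = ((t ^ Module.finrank ℝ V : ℝ) : ℂ) * ballInt g R (t • x) := by
    intro R hR
    rw [ballInt_comp_smul g ht (by positivity), mul_div_cancel_left₀ _ ht.ne']
  unfold dyH
  rw [← ENNReal.tsum_mul_left]
  congr 1
  funext j
  rw [mul_left_comm]
  congr 1
  unfold dy
  rw [Finset.mul_sum]
  refine Finset.sum_congr rfl fun i _ => ?_
  have e1 : t * a + t * l * ((i : ℝ) + 1) / 2 ^ j = t * (a + l * ((i : ℝ) + 1) / 2 ^ j) := by ring
  have e2 : t * a + t * l * (i : ℝ) / 2 ^ j = t * (a + l * (i : ℝ) / 2 ^ j) := by ring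
  rw [e1, e2]
  simp only
  rw [key _ (by positivity), key _ (by positivity), ← mul_sub, enorm_mul, mul_pow, hc]

lemma Hs_comp_smul (g : V → ℂ) {t : ℝ} (ht : 0 < t) {r : ℕ → ℝ} (hr : Monotone r)
    (hr0 : 0 ≤ r 0) (x : V) :
    Hs (fun ξ => g (t⁻¹ • ξ)) (fun k => t * r k) x
      = ENNReal.ofReal (t ^ Module.finrank ℝ V) ^ 2 * Hs g r (t • x) := by
  unfold Hs
  rw [← ENNReal.tsum_mul_left]
  congr 1
  funext k
  rw [← mul_sub]
  exact dyH_comp_smul g ht (hr0.trans (hr (Nat.zero_le k))) (sub_nonneg.2 (hr (Nat.le_succ k))) x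

theorem Hs_ball (hd : 1 ≤ Module.finrank ℝ V) {g : V → ℂ} (hg : MemLp g 2 (volume : Measure V))
    {r : ℕ → ℝ} (hr : StrictMono r) (hr0 : 0 ≤ r 0) {L : ℝ} (hL : ∀ k, r (k+1) - r k ≤ L)
    {ρ : ℝ} (hρ : 0 < ρ) :
    ∫⁻ x in Metric.closedBall (0:V) ρ, Hs g r x
      ≤ ENNReal.ofReal (6 * rexp π * shellConst V) * ENNReal.ofReal (L * ρ) * ∫⁻ ξ, ‖g ξ‖ₑ ^ 2 := by
  have hK := shellConst_nonneg (V := V)
  set n := Module.finrank ℝ V with hn
  have htn : (0:ℝ) < ρ ^ n := by positivity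
  have hg' : MemLp (fun ξ => g (ρ⁻¹ • ξ)) 2 (volume : Measure V) := memLp_comp_smul hg (inv_pos.2 hρ)
  have h1 := Hs_l2 hd hg' (r := fun k => ρ * r k) (L := ρ * L)
    (fun i j hij => mul_lt_mul_of_pos_left (hr hij) hρ) (mul_nonneg hρ.le hr0)
    (fun k => by rw [← mul_sub]; exact mul_le_mul_of_nonneg_left (hL k) hρ.le)
  have hLρ : 0 ≤ L := (sub_nonneg.2 (hr.monotone (Nat.le_succ 0))).trans (hL 0)
  have e1 : ∫⁻ ξ, ‖g (ρ⁻¹ • ξ)‖ₑ ^ 2 = ENNReal.ofReal (ρ ^ n) * ∫⁻ ξ, ‖g ξ‖ₑ ^ 2 := by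
    rw [lintegral_comp_smul_pos (fun ξ => ‖g ξ‖ₑ ^ 2) (inv_pos.2 hρ), ← hn, inv_pow, inv_inv]
  rw [e1] at h1
  have e2 : ∫⁻ x, Hs (fun ξ => g (ρ⁻¹ • ξ)) (fun k => ρ * r k) x * ENNReal.ofReal (gw x)
      = ENNReal.ofReal (ρ ^ n) * ∫⁻ y, Hs g r y * ENNReal.ofReal (gw (ρ⁻¹ • y)) := by
    have : ∀ x : V, Hs (fun ξ => g (ρ⁻¹ • ξ)) (fun k => ρ * r k) x * ENNReal.ofReal (gw x)
        = ENNReal.ofReal (ρ ^ n) ^ 2 *
          (fun y => Hs g r y * ENNReal.ofReal (gw (ρ⁻¹ • y))) (ρ • x) := by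
      intro x
      simp only
      rw [Hs_comp_smul g hρ hr.monotone hr0, smul_smul, inv_mul_cancel₀ hρ.ne', one_smul, mul_assoc]
    simp_rw [this]
    rw [lintegral_const_mul' _ _ (by simp [ENNReal.ofReal_ne_top]),
      lintegral_comp_smul_pos (fun y => Hs g r y * ENNReal.ofReal (gw (ρ⁻¹ • y))) hρ,
      ← mul_assoc, sq, mul_assoc (ENNReal.ofReal (ρ ^ n)), ← ENNReal.ofReal_mul htn.le,
      mul_inv_cancel₀ htn.ne', ENNReal.ofReal_one, mul_one]
  rw [e2] at h1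
  have hc0 : ENNReal.ofReal (ρ ^ n) ≠ 0 := (ENNReal.ofReal_pos.2 htn).ne'
  have h2 : ∫⁻ y, Hs g r y * ENNReal.ofReal (gw (ρ⁻¹ • y))
      ≤ 6 * ENNReal.ofReal (shellConst V * (ρ * L)) * ∫⁻ ξ, ‖g ξ‖ₑ ^ 2 := by
    rw [← ENNReal.mul_le_mul_iff_right hc0 ENNReal.ofReal_ne_top]
    refine h1.trans (le_of_eq ?_)
    ring
  calc ∫⁻ x in Metric.closedBall (0:V) ρ, Hs g r x
      ≤ ∫⁻ x in Metric.closedBall (0:V) ρ, ENNReal.ofReal (rexp π) *
          (Hs g r x * ENNReal.ofReal (gw (ρ⁻¹ • x))) := by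
        refine setLIntegral_mono' Metric.isClosed_closedBall.measurableSet fun x hx => ?_
        have hx' : ‖x‖ ≤ ρ := by simpa using hx
        have h3 : 1 ≤ rexp π * gw (ρ⁻¹ • x) := by
          unfold gw
          rw [← Real.exp_add]
          apply Real.one_le_exp
          rw [norm_smul, Real.norm_of_nonneg (inv_pos.2 hρ).le]
          have h4 : ρ⁻¹ * ‖x‖ ≤ 1 := by
            rw [inv_mul_le_iff₀ hρ, mul_one]; exact hx'
          have h5 : (ρ⁻¹ * ‖x‖) ^ 2 ≤ 1 := pow_le_one₀ (by positivity) h4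
          have := Real.pi_pos
          nlinarith
        calc Hs g r x = Hs g r x * 1 := (mul_one _).symm
          _ ≤ Hs g r x * ENNReal.ofReal (rexp π * gw (ρ⁻¹ • x)) := by
              gcongr
              rw [← ENNReal.ofReal_one]
              exact ENNReal.ofReal_le_ofReal h3
          _ = _ := by rw [ENNReal.ofReal_mul (Real.exp_pos _).le]; ring
    _ ≤ ∫⁻ x, ENNReal.ofReal (rexp π) * (Hs g r x * ENNReal.ofReal (gw (ρ⁻¹ • x))) :=
        setLIntegral_le_lintegral _ _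
    _ = ENNReal.ofReal (rexp π) * ∫⁻ x, Hs g r x * ENNReal.ofReal (gw (ρ⁻¹ • x)) :=
        lintegral_const_mul' _ _ ENNReal.ofReal_ne_top
    _ ≤ ENNReal.ofReal (rexp π) * (6 * ENNReal.ofReal (shellConst V * (ρ * L)) * ∫⁻ ξ, ‖g ξ‖ₑ ^ 2) := by
        gcongr
    _ = _ := by
        rw [ENNReal.ofReal_mul hK, mul_comm ρ L, ENNReal.ofReal_mul (by positivity : (0:ℝ) ≤ 6 * rexp π),
          ENNReal.ofReal_mul (by norm_num : (0:ℝ) ≤ 6)]
        have : ENNReal.ofReal 6 = 6 := by simp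
        rw [this]
        ring

/-! ### Changing signs on the shells -/

/-- Multiply `g` on the shell `L m < |ξ| ≤ L (m+1)` by the sign `e m`. -/
noncomputable def rnd (L : ℝ) (e : ℕ → Bool) (g : V → ℂ) (ξ : V) : ℂ :=
  sgn (e (⌈‖ξ‖ / L⌉₊ - 1)) * g ξ

lemma memLp_rnd (L : ℝ) (e : ℕ → Bool) {g : V → ℂ} (hg : MemLp g 2 (volume : Measure V)) :
    MemLp (rnd L e g) 2 (volume : Measure V) := by
  have hm : Measurable (fun ξ : V => sgn (e (⌈‖ξ‖ / L⌉₊ - 1))) := by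
    have h1 : Measurable (fun m : ℕ => sgn (e (m - 1))) := measurable_from_nat
    have h2 : Measurable (fun ξ : V => ⌈‖ξ‖ / L⌉₊) := (measurable_norm.div_const L).nat_ceil
    exact h1.comp h2
  refine hg.of_le (hm.aestronglyMeasurable.mul hg.aestronglyMeasurable) ?_
  refine Filter.Eventually.of_forall fun ξ => ?_
  unfold rnd
  rw [norm_mul, norm_sgn, one_mul]

lemma rnd_shell {L : ℝ} (hL : 0 < L) (e : ℕ → Bool) (g : V → ℂ) (m : ℕ) {ξ : V}
    (h1 : (m:ℝ) * L < ‖ξ‖) (h2 : ‖ξ‖ ≤ ((m:ℝ) + 1) * L) : rnd L e g ξ = sgn (e m) * g ξ := by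
  unfold rnd
  have : ⌈‖ξ‖ / L⌉₊ = m + 1 := by
    rw [Nat.ceil_eq_iff (by omega)]
    constructor
    · rw [lt_div_iff₀ hL]; simpa using h1
    · rw [div_le_iff₀ hL]; push_cast; exact h2
  rw [this]
  simp

lemma ballInt_rnd_sub {L : ℝ} (hL : 0 < L) (e : ℕ → Bool) {g : V → ℂ}
    (hg : MemLp g 2 (volume : Measure V)) (m : ℕ) {R : ℝ} (h1 : (m:ℝ) * L ≤ R)
    (h2 : R ≤ ((m:ℝ) + 1) * L) (x : V) :
    ballInt (rnd L e g) R x - ballInt (rnd L e g) ((m:ℝ) * L) x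
      = sgn (e m) * (ballInt g R x - ballInt g ((m:ℝ) * L) x) := by
  rw [ballInt_sub (memLp_rnd L e hg) h1, ballInt_sub hg h1]
  unfold R13.Radii.ext
  rw [← integral_const_mul]
  congr 1
  funext ξ
  by_cases h : ξ ∈ shell V ((m:ℝ) * L) R
  · rw [Set.indicator_of_mem h, Set.indicator_of_mem h, rnd_shell hL e g m h.1 (h.2.trans h2)]
    ring
  · rw [Set.indicator_of_notMem h, Set.indicator_of_notMem h]
    simp

/-- The shell pieces. -/
noncomputable def pc (g : V → ℂ) (L : ℝ) (x : V) (j : ℕ) : ℂ :=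
  ballInt g (((j:ℝ) + 1) * L) x - ballInt g ((j:ℝ) * L) x

lemma ballInt_rnd_nat [Nontrivial V] {L : ℝ} (hL : 0 < L) (e : ℕ → Bool) {g : V → ℂ}
    (hg : MemLp g 2 (volume : Measure V)) (m : ℕ) (x : V) :
    ballInt (rnd L e g) ((m:ℝ) * L) x = ps (pc g L x) e m := by
  induction m with
  | zero => simp [ps, ballInt_zero]
  | succ m ih =>
    rw [ps_succ, ← ih]
    have := ballInt_rnd_sub hL e hg m (R := ((m:ℝ) + 1) * L) (by nlinarith) le_rfl x
    unfold pc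
    rw [← this]
    push_cast
    ring

lemma pc_sq_le (g : V → ℂ) (L : ℝ) (x : V) (j : ℕ) :
    ‖pc g L x j‖ₑ ^ 2 ≤ dyH (fun R => ballInt g R x) ((j:ℝ) * L) ((((j+1 : ℕ) : ℝ) * L) - (j:ℝ) * L) := by
  unfold dyH
  refine le_trans (le_of_eq ?_) (ENNReal.le_tsum 0)
  unfold dy pc
  simp only [pow_zero, Finset.range_one, Finset.sum_singleton, Nat.cast_zero, zero_add, mul_one,
    div_one, mul_zero, add_zero, ENNReal.ofReal_one, one_mul]
  congr 3
  push_cast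
  congr 1
  ring

lemma tsum_pc_le (g : V → ℂ) (L : ℝ) (x : V) :
    ∑' j, ‖pc g L x j‖ₑ ^ 2 ≤ Hs g (fun k => (k:ℝ) * L) x :=
  ENNReal.tsum_le_tsum fun j => pc_sq_le g L x j

lemma maxBall_rnd_le (hd : 1 ≤ Module.finrank ℝ V) {L : ℝ} (hL : 0 < L) (e : ℕ → Bool) {g : V → ℂ}
    (hg : MemLp g 2 (volume : Measure V)) (x : V) :
    maxBall (rnd L e g) x ^ 2 ≤ 4 * (⨆ k, ‖ps (pc g L x) e k‖ₑ) ^ 2
      + 16 * Hs g (fun k => (k:ℝ) * L) x := by
  have := finrank_pos_nontrivial hd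
  set r : ℕ → ℝ := fun k => (k:ℝ) * L with hrdef
  have hr : StrictMono r := by
    intro i j hij
    simp only [hrdef]
    have : (i:ℝ) < j := by exact_mod_cast hij
    exact mul_lt_mul_of_pos_right this hL
  have hr0 : r 0 = 0 := by simp [hrdef]
  have hrt : Filter.Tendsto r Filter.atTop Filter.atTop :=
    tendsto_natCast_atTop_atTop.atTop_mul_const hL
  have h1 : maxBall (rnd L e g) x ≤ (⨆ k, ‖ps (pc g L x) e k‖ₑ) + osc g r x := by
    refine iSup₂_le fun R hR => ?_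
    obtain ⟨k, hk⟩ := exists_block hr0 hrt (le_of_lt hR : (0:ℝ) ≤ R)
    have hk1 : (k:ℝ) * L ≤ R := hk.1
    have hk2 : R ≤ ((k:ℝ) + 1) * L := by
      have := hk.2.le
      simp only [hrdef] at this
      push_cast at this
      exact this
    have e1 : ballInt (rnd L e g) R x = ps (pc g L x) e k
        + sgn (e k) * (ballInt g R x - ballInt g (r k) x) := by
      rw [← ballInt_rnd_nat hL e hg, ← ballInt_rnd_sub hL e hg k hk1 hk2]
      ring
    rw [e1]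
    refine (enorm_add_le _ _).trans ?_
    gcongr
    · exact le_iSup (fun k => ‖ps (pc g L x) e k‖ₑ) k
    · rw [enorm_mul]
      have : ‖sgn (e k)‖ₑ = 1 := by rw [← ofReal_norm, norm_sgn, ENNReal.ofReal_one]
      rw [this, one_mul]
      exact osc_mem x k hk
  calc maxBall (rnd L e g) x ^ 2 ≤ ((⨆ k, ‖ps (pc g L x) e k‖ₑ) + osc g r x) ^ 2 := by gcongr
    _ ≤ 4 * (⨆ k, ‖ps (pc g L x) e k‖ₑ) ^ 2 + 4 * osc g r x ^ 2 := add_sq_le_four _ _
    _ ≤ 4 * (⨆ k, ‖ps (pc g L x) e k‖ₑ) ^ 2 + 4 * (4 * Hs g r x) := by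
        gcongr
        exact osc_sq_le hd hg hr x
    _ = _ := by rw [← mul_assoc]; norm_num

variable {Ω : Type*} [MeasurableSpace Ω] {P : Measure Ω} [IsProbabilityMeasure P]

/-- **Random signs on shells.** -/
theorem random_shells (hd : 1 ≤ Module.finrank ℝ V) {L ρ : ℝ} (hL : 0 < L) (hρ : 0 < ρ)
    {g : V → ℂ} (hg : MemLp g 2 (volume : Measure V)) {ε : ℕ → Ω → Bool} (h : IsSigns ε P) :
    ∫⁻ ω, (∫⁻ x in Metric.closedBall (0:V) ρ, maxBall (rnd L (fun m => ε m ω) g) x ^ 2) ∂P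
      ≤ ENNReal.ofReal (192 * rexp π * shellConst V) * ENNReal.ofReal (L * ρ) * ∫⁻ ξ, ‖g ξ‖ₑ ^ 2 := by
  set r : ℕ → ℝ := fun k => (k:ℝ) * L with hrdef
  have hr : StrictMono r := by
    intro i j hij
    simp only [hrdef]
    have : (i:ℝ) < j := by exact_mod_cast hij
    exact mul_lt_mul_of_pos_right this hL
  have hr0 : r 0 = 0 := by simp [hrdef]
  have hgap : ∀ k, r (k+1) - r k ≤ L := by
    intro k; simp only [hrdef]; push_cast; linarith
  have hK := shellConst_nonneg (V := V)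
  have hcont : ∀ j, Continuous (fun x => pc g L x j) := fun j =>
    (continuous_ballInt_x hg _).sub (continuous_ballInt_x hg _)
  have hjm : Measurable (fun z : Ω × V => (⨆ k, ‖ps (pc g L z.2) (fun m => ε m z.1) k‖ₑ) ^ 2) := by
    refine Measurable.pow_const (Measurable.iSup fun k => Measurable.enorm ?_) 2
    unfold ps
    refine Finset.measurable_fun_sum _ fun j _ => ?_
    refine Measurable.mul ?_ ((hcont j).measurable.comp measurable_snd)
    exact (measurable_of_finite sgn).comp ((h.meas j).comp measurable_fst)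
  have hHm : Measurable (Hs g r) := measurable_Hs hg r
  have hΨ : Measurable (fun z : Ω × V => 4 * (⨆ k, ‖ps (pc g L z.2) (fun m => ε m z.1) k‖ₑ) ^ 2
      + 16 * Hs g r z.2) :=
    (hjm.const_mul 4).add ((hHm.comp measurable_snd).const_mul 16)
  calc ∫⁻ ω, (∫⁻ x in Metric.closedBall (0:V) ρ, maxBall (rnd L (fun m => ε m ω) g) x ^ 2) ∂P
      ≤ ∫⁻ ω, (∫⁻ x in Metric.closedBall (0:V) ρ, (4 * (⨆ k, ‖ps (pc g L x) (fun m => ε m ω) k‖ₑ) ^ 2
          + 16 * Hs g r x)) ∂P :=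
        lintegral_mono fun ω => lintegral_mono fun x => maxBall_rnd_le hd hL _ hg x
    _ = ∫⁻ x in Metric.closedBall (0:V) ρ, (∫⁻ ω, (4 * (⨆ k, ‖ps (pc g L x) (fun m => ε m ω) k‖ₑ) ^ 2
          + 16 * Hs g r x) ∂P) :=
        lintegral_lintegral_swap (μ := P) (ν := volume.restrict (Metric.closedBall (0:V) ρ))
          (f := fun ω x => 4 * (⨆ k, ‖ps (pc g L x) (fun m => ε m ω) k‖ₑ) ^ 2 + 16 * Hs g r x)
          hΨ.aemeasurable
    _ ≤ ∫⁻ x in Metric.closedBall (0:V) ρ, 32 * Hs g r x := by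
        refine lintegral_mono fun x => ?_
        simp only
        rw [lintegral_add_right _ measurable_const, lintegral_const_mul' _ _ (by norm_num),
          lintegral_const, measure_univ, mul_one]
        have := (maximal h (pc g L x)).trans (mul_le_mul_right (tsum_pc_le g L x) 4)
        calc 4 * (∫⁻ ω, (⨆ k, ‖ps (pc g L x) (fun m => ε m ω) k‖ₑ) ^ 2 ∂P) + 16 * Hs g r x
            ≤ 4 * (4 * Hs g r x) + 16 * Hs g r x := by gcongr
          _ = 32 * Hs g r x := by ring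
    _ = 32 * ∫⁻ x in Metric.closedBall (0:V) ρ, Hs g r x := lintegral_const_mul' _ _ (by norm_num)
    _ ≤ 32 * (ENNReal.ofReal (6 * rexp π * shellConst V) * ENNReal.ofReal (L * ρ)
          * ∫⁻ ξ, ‖g ξ‖ₑ ^ 2) := by
        gcongr
        exact Hs_ball hd hg hr hr0.ge hgap hρ
    _ = _ := by
        have e : (192 : ℝ) * rexp π * shellConst V = 32 * (6 * rexp π * shellConst V) := by ring
        rw [e, ENNReal.ofReal_mul (by norm_num : (0:ℝ) ≤ 32)]
        have : ENNReal.ofReal 32 = 32 := by simp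
        rw [this]
        ring

end R13.Shells
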